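import Pool.Agent.H31.UF.Targets

/-!
Module [COP] of the project UF on `MP_c59857_nt`: the mean of the product vanishes, case `D > 0`.
-/

set_option autoImplicit false

open Finset Filter Topology

namespace Pool.Agent.H55.UF

open Pool.Agent.H91.LF Pool.Agent.H31.UF
open Pool.Agent.H24.T2 (Pset)

/-- The second moment of a sum of products over the vertices. -/
theorem second_moment {d : ℕ} {S : Type} [Fintype S] (M : Mean d) (A : S → Fin d → ℤ)
    (hG : Gz M A) (P : Finset ℕ) (X : ℕ → ℤ)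
    (hX : ∀ p ∈ P, ∀ q ∈ P, p ≠ q → X p ≠ X q) :
    M.E (fun ω => (∑ p ∈ P, Pv A (X p) ω) * ∑ p ∈ P, Pv A (X p) ω) ≤ P.card := by
  classical
  have e : (fun ω => (∑ p ∈ P, Pv A (X p) ω) * ∑ p ∈ P, Pv A (X p) ω) =
      fun ω => ∑ p ∈ P, ∑ q ∈ P, Pv A (X p) ω * Pv A (X q) ω := by
    funext ω
    rw [Finset.sum_mul_sum]
  rw [e, M.E_sum _ _ (fun p _ => bdd_sum _ _ fun q _ => bdd_mul (bdd_Pv _ _) (bdd_Pv _ _))]
  have h1 : ∀ p ∈ P, M.E (fun ω => ∑ q ∈ P, Pv A (X p) ω * Pv A (X q) ω) ≤ 1 := by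
    intro p hp
    rw [M.E_sum _ _ (fun q _ => bdd_mul (bdd_Pv _ _) (bdd_Pv _ _))]
    calc ∑ q ∈ P, M.E (fun ω => Pv A (X p) ω * Pv A (X q) ω)
        ≤ ∑ q ∈ P, if q = p then (1 : ℝ) else 0 := by
          refine Finset.sum_le_sum fun q hq => ?_
          by_cases h : q = p
          · rw [if_pos h]
            exact (le_abs_self _).trans (M.abs_E_le fun ω =>
              abs_mul_le_one (abs_Pv_le _ _ _) (abs_Pv_le _ _ _))
          · rw [if_neg h]
            have h2 := hG (X p) (X q - X p) (sub_ne_zero.2 (hX q hq p hp h))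
            rwa [add_sub_cancel] at h2
      _ = 1 := by rw [Finset.sum_ite_eq' P p, if_pos hp]
  calc ∑ p ∈ P, M.E (fun ω => ∑ q ∈ P, Pv A (X p) ω * Pv A (X q) ω)
      ≤ ∑ p ∈ P, (1 : ℝ) := Finset.sum_le_sum h1
    _ = P.card := by rw [Finset.sum_const, nsmul_eq_mul, mul_one]

theorem sq_le_two_pow : ∀ m : ℕ, 4 ≤ m → m * m ≤ 2 ^ m := by
  intro m hm
  induction m, hm using Nat.le_induction with
  | base => norm_num
  | succ n hn ih =>
    rw [pow_succ]
    nlinarith

theorem abs_ite_le {P : Prop} [Decidable P] {x : ℝ} (hx : |x| ≤ 1) :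
    |if P then x else 0| ≤ 1 := by
  split_ifs
  · exact hx
  · simp

/-- [COP] The case `D > 0`. -/
theorem pf_COP (hDEC : StatementDEC) (hSHF : T_SHF) (hDLF : T_DLF) (hWIN : T_WIN) : T_COP := by
  classical
  intro d r S _ A a W c u e j D C M hW hD hS hI hDir hDil hG
  obtain ⟨c₀, hc₀, hDEC⟩ := hDEC
  obtain ⟨hC, hI0, hIj⟩ := hI
  set Q : ℕ := 2 * D * W with hQdef
  have hQ : 0 < Q := by positivity
  have hWQ : W ∣ Q := ⟨2 * D, by rw [hQdef]; ring⟩
  have hD' : (D : ℤ) ≠ 0 := by exact_mod_cast hD.ne'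
  -- the window
  set S₀ : ℤ := ∑ i, ∑ s, (|a i| + W * ∑ l, |A i s l|) with hS₀
  have hterm0 : ∀ i s, 0 ≤ |a i| + W * ∑ l, |A i s l| := fun i s => by positivity
  have hS₀0 : 0 ≤ S₀ := Finset.sum_nonneg fun i _ => Finset.sum_nonneg fun s _ => hterm0 i s
  set R₀ : ℕ := S₀.toNat with hR₀
  have hR₀' : ∀ i s, |a i| + W * ∑ l, |A i s l| ≤ R₀ := by
    intro i s
    have h3 : |a i| + W * ∑ l, |A i s l| ≤ ∑ s, (|a i| + W * ∑ l, |A i s l|) :=
      Finset.single_le_sum (f := fun s => |a i| + W * ∑ l, |A i s l|) (fun s _ => hterm0 i s)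
        (Finset.mem_univ s)
    have h4 : ∑ s, (|a i| + W * ∑ l, |A i s l|) ≤ S₀ :=
      Finset.single_le_sum (f := fun i => ∑ s, (|a i| + W * ∑ l, |A i s l|))
        (fun i _ => Finset.sum_nonneg fun s _ => hterm0 i s) (Finset.mem_univ i)
    rw [hR₀, Int.toNat_of_nonneg hS₀0]
    exact h3.trans h4
  set R : ℕ := 2 * (2 * R₀ + 1) with hR
  have hR0 : 0 < R := by omega
  have main : ∀ ε : ℝ, 0 < ε → |M.E (Fp A a W c)| ≤ ε := by
    intro ε hε
    have : NeZero W := ⟨hW.ne'⟩
    obtain ⟨m₁, hm₁⟩ := exists_nat_gt (4 * Nat.totient Q / (c₀ * ε ^ 2))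
    obtain ⟨M', hM', hdense, hg⟩ := hDEC d M
      ((Fin d → ZMod W) × (Fin r → S → SignType)) inferInstance (xs A W)
      e Q W R (ε / 2) (max m₁ 4) hQ hW hWQ hR0 (by positivity)
    have hM1 : m₁ ≤ M' := (le_max_left _ _).trans hM'
    have hM3 : 4 ≤ M' := (le_max_right _ _).trans hM'
    set P := Pset Q M' with hP
    have hmem : ∀ p ∈ P, (2 ^ M' < p ∧ p ≤ 2 ^ (M' + 1)) ∧ p.Prime ∧ p ≡ 1 [MOD Q] := by
      intro p hp
      have := Finset.mem_filter.1 hp
      exact ⟨Finset.mem_Ioc.1 this.1, this.2⟩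
    have hQpos : (0 : ℝ) < Nat.totient Q := by exact_mod_cast Nat.totient_pos.2 hQ
    have hM'pos : (0 : ℝ) < M' := by exact_mod_cast (by omega : 0 < M')
    have hPbig : 4 / ε ^ 2 ≤ (P.card : ℝ) := by
      refine le_trans ?_ hdense
      have h3 : (M' : ℝ) * M' ≤ 2 ^ M' := by exact_mod_cast sq_le_two_pow M' hM3
      have h4 : 4 * Nat.totient Q / (c₀ * ε ^ 2) ≤ M' := by
        have : (m₁ : ℝ) ≤ M' := by exact_mod_cast hM1
        linarith
      rw [div_le_div_iff₀ (by positivity) (by positivity)]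
      rw [div_le_iff₀ (by positivity)] at h4
      calc 4 * (Nat.totient Q * (M' : ℝ)) = (4 * Nat.totient Q) * M' := by ring
        _ ≤ (M' * (c₀ * ε ^ 2)) * M' := by gcongr
        _ = c₀ * (M' * M') * ε ^ 2 := by ring
        _ ≤ c₀ * 2 ^ M' * ε ^ 2 := by gcongr
    have hPpos : (0 : ℝ) < (P.card : ℝ) := lt_of_lt_of_le (by positivity) hPbig
    -- the shift
    set κ : ℕ → ℤ := fun p => ((p : ℤ) - 1) / D with hκ
    have hdvd : ∀ p ∈ P, (Q : ℤ) ∣ (p : ℤ) - 1 := by
      intro p hp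
      have := (hmem p hp).2.2
      exact (Nat.modEq_iff_dvd.1 this.symm)
    have hκD : ∀ p ∈ P, (D : ℤ) * κ p = (p : ℤ) - 1 := by
      intro p hp
      have h3 : (D : ℤ) ∣ (p : ℤ) - 1 :=
        dvd_trans ⟨2 * W, by rw [hQdef]; push_cast; ring⟩ (hdvd p hp)
      exact Int.mul_ediv_cancel' h3
    have hκW : ∀ p ∈ P, (W : ℤ) ∣ κ p := by
      intro p hp
      obtain ⟨t, ht⟩ := hdvd p hp
      refine ⟨2 * t, ?_⟩
      have h3 := hκD p hp
      rw [ht, hQdef] at h3
      push_cast at h3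
      apply mul_left_cancel₀ hD'
      rw [h3]
      ring
    have hκinj : ∀ p ∈ P, ∀ q ∈ P, p ≠ q → κ p ≠ κ q := by
      intro p hp q hq hpq h
      apply hpq
      have h3 := hκD p hp
      have h4 := hκD q hq
      rw [h, h4] at h3
      have : (p : ℤ) = q := by linarith
      exact_mod_cast this
    -- the functions
    set g : ℕ → (Fin d → ℤ) → ℝ := fun p ω =>
      Fp A (fun i => (p : ℤ) * a i) W c (ω + ((p : ℤ) * R₀) • e) with hgdef
    have hDEC1 := hg g (fun p _ ω => abs_Fp_le _ _ _ _ _) (by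
      intro p hp ω ω' hx κ' hκ'
      have hpp := (hmem p hp).1.2
      have hppos : 0 < p := (hmem p hp).2.1.pos
      have hppos' : (0 : ℤ) < p := by exact_mod_cast hppos
      have hn : p * (2 * R₀ + 1) ≤ R * 2 ^ M' := by
        calc p * (2 * R₀ + 1) ≤ 2 ^ (M' + 1) * (2 * R₀ + 1) := Nat.mul_le_mul_right _ hpp
          _ = R * 2 ^ M' := by rw [hR, pow_succ]; ring
      have hn' : (p : ℤ) * (2 * R₀ + 1) ≤ ((R * 2 ^ M' : ℕ) : ℤ) := by exact_mod_cast hn
      have h3 := hWIN d r S A (fun i => (p : ℤ) * a i) W (R * 2 ^ M') c e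
        ((W : ℤ) • κ' + ((p : ℤ) * R₀) • e) (by positivity) hDir (by
          intro i s
          rw [lf_add, lf_smul, lf_smul, hDir i s, mul_one]
          have h4 := abs_lf_le (A i s) κ' p (fun l => by
            have := hκ' l
            rw [abs_of_nonneg this.1]
            exact this.2.le)
          have h5 := hR₀' i s
          have h6 : |(W : ℤ) * lf (A i s) κ'| ≤ p * (W * ∑ l, |A i s l|) := by
            rw [abs_mul, Nat.abs_cast]
            calc (W : ℤ) * |lf (A i s) κ'| ≤ W * (p * ∑ l, |A i s l|) := by gcongr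
              _ = _ := by ring
          have h7 : |(p : ℤ) * a i| = p * |a i| := by rw [abs_mul, Nat.abs_cast]
          have h8 := abs_le.1 h6
          have h9 := abs_le.1 h7.le
          have h10 : (p : ℤ) * (|a i| + W * ∑ l, |A i s l|) ≤ p * R₀ := by gcongr
          constructor
          · linarith [h8.1, h9.1]
          · have : (p : ℤ) * (2 * R₀ + 1) = 2 * (p * R₀) + p := by ring
            linarith [h8.2, h9.2]) ω ω' hx
      show Fp A (fun i => (p : ℤ) * a i) W c (ω + (W : ℤ) • κ' + ((p : ℤ) * R₀) • e) =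
        Fp A (fun i => (p : ℤ) * a i) W c (ω' + (W : ℤ) • κ' + ((p : ℤ) * R₀) • e)
      rw [add_assoc, add_assoc]
      exact h3)
    -- the first mean
    have hE1 : ∀ p ∈ P, M.E (fun ω => (p : ℝ) ^ d *
        if ∀ i, (p : ℤ) ∣ ω i then g p ω else 0) = M.E (Fp A a W c) := by
      intro p hp
      have hpW : (p : ℤ) ≡ 1 [ZMOD W] := by
        have h3 : (W : ℤ) ∣ (p : ℤ) - 1 :=
          dvd_trans (by exact_mod_cast hWQ) (hdvd p hp)
        exact (Int.modEq_iff_dvd.2 h3).symm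
      have h3 := hDLF d r S A a W c M p hDil hS (hmem p hp).2.1 hpW
      have h4 := M.shift (((p : ℤ) * R₀) • e) (fun ω => (p : ℝ) ^ d *
        if ∀ i, (p : ℤ) ∣ ω i then Fp A (fun i => (p : ℤ) * a i) W c ω else 0)
          (bdd_smul _ ⟨1, fun ω => abs_ite_le (abs_Fp_le _ _ _ _ _)⟩)
      rw [h3] at h4
      rw [← h4]
      congr 1
      funext ω
      congr 1
      have hiff : (∀ i, (p : ℤ) ∣ (ω + ((p : ℤ) * R₀) • e) i) ↔ ∀ i, (p : ℤ) ∣ ω i := by
        have h5 : ∀ i, (p : ℤ) ∣ ((((p : ℤ) * R₀) • e : Fin d → ℤ)) i := fun i => by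
          rw [Pi.smul_apply, smul_eq_mul, mul_assoc]
          exact Dvd.intro _ rfl
        constructor
        · intro h6 i
          exact (dvd_add_left (h5 i)).1 (h6 i)
        · intro h6 i
          exact (dvd_add_left (h5 i)).2 (h6 i)
      by_cases h6 : ∀ i, (p : ℤ) ∣ ω i
      · rw [if_pos h6, if_pos (hiff.2 h6)]
      · rw [if_neg h6, if_neg (fun h7 => h6 (hiff.1 h7))]
    -- the second mean
    have hE2 : ∀ p ∈ P, M.E (g p) =
        M.E (fun ω => Hp A a W c j ω * Pv (A j) (a j + κ p * C) ω) := by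
      intro p hp
      have h3 := M.shift (((p : ℤ) * R₀) • e)
        (Fp A (fun i => (p : ℤ) * a i) W c) (bdd_Fp _ _ _ _)
      have h4 := M.shift (κ p • u) (Fp A (fun i => (p : ℤ) * a i) W c) (bdd_Fp _ _ _ _)
      have h5 : M.E (g p) = M.E (Fp A (fun i => (p : ℤ) * a i) W c) := h3
      rw [h5, ← h4]
      congr 1
      funext ω
      have h8 := hκD p hp
      apply hSHF d r S A a (fun i => (p : ℤ) * a i) W c (κ p • u) j (a j + κ p * C)
      · intro i
        rw [Pi.smul_apply, smul_eq_mul]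
        exact (hκW p hp).mul_right _
      · intro i hi s
        rw [lf_smul]
        have h6 := hI0 i hi s
        have h7 : lf (A i s) u = - (D * a i) := by linarith
        rw [h7]
        linear_combination (-a i) * h8
      · intro s
        rw [lf_smul]
        have h7 : lf (A j s) u = C - D * a j := by
          have := hIj s
          linarith
        rw [h7]
        linear_combination (-a j) * h8
    -- the second moment
    set Sg : (Fin d → ℤ) → ℝ := fun ω => ∑ p ∈ P, Pv (A j) (a j + κ p * C) ω with hSg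
    have hSgb : Bdd Sg := bdd_sum _ _ fun p _ => bdd_Pv _ _
    have hE3 : ∑ p ∈ P, M.E (g p) = M.E (fun ω => Hp A a W c j ω * Sg ω) := by
      have e : (fun ω => Hp A a W c j ω * Sg ω) = fun ω => ∑ p ∈ P,
          Hp A a W c j ω * Pv (A j) (a j + κ p * C) ω := by
        funext ω
        rw [hSg, Finset.mul_sum]
      rw [e, M.E_sum _ _ (fun κ _ => bdd_mul (bdd_Hp _ _ _ _ _) (bdd_Pv _ _))]
      exact Finset.sum_congr rfl hE2
    have hsq : M.E (fun ω => Sg ω * Sg ω) ≤ P.card := by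
      apply second_moment M (A j) hG P (fun p => a j + κ p * C)
      intro p hp q hq hpq h
      have h3 : (κ p - κ q) * C = 0 := by linear_combination h
      rcases mul_eq_zero.1 h3 with h4 | h4
      · exact hκinj p hp q hq hpq (sub_eq_zero.1 h4)
      · exact hC h4
    have hcs := M.sq_E_mul_le (f := Hp A a W c j) (g := Sg) (abs_Hp_le A a W c j) hSgb
    have habs : |∑ p ∈ P, M.E (g p)| ≤ ε / 2 * P.card := by
      rw [hE3]
      apply abs_le_of_sq_le_sq _ (by positivity)
      refine hcs.trans (hsq.trans ?_)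
      rw [div_le_iff₀ (by positivity)] at hPbig
      have h3 := mul_le_mul_of_nonneg_right hPbig hPpos.le
      nlinarith
    -- conclusion
    have hfin : (P.card : ℝ) * |M.E (Fp A a W c)| ≤ P.card * ε := by
      have h3 : (P.card : ℝ) * M.E (Fp A a W c) =
          ∑ p ∈ P, (M.E (fun ω => (p : ℝ) ^ d *
            if ∀ i, (p : ℤ) ∣ ω i then g p ω else 0) - M.E (g p)) + ∑ p ∈ P, M.E (g p) := by
        rw [Finset.sum_sub_distrib, sub_add_cancel, Finset.sum_congr rfl hE1, Finset.sum_const,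
          nsmul_eq_mul]
      calc (P.card : ℝ) * |M.E (Fp A a W c)| = |(P.card : ℝ) * M.E (Fp A a W c)| := by
            rw [abs_mul, abs_of_pos hPpos]
        _ ≤ |∑ p ∈ P, (M.E (fun ω => (p : ℝ) ^ d *
            if ∀ i, (p : ℤ) ∣ ω i then g p ω else 0) - M.E (g p))| + |∑ p ∈ P, M.E (g p)| := by
            rw [h3]
            exact abs_add_le _ _
        _ ≤ ∑ p ∈ P, |M.E (fun ω => (p : ℝ) ^ d *
            if ∀ i, (p : ℤ) ∣ ω i then g p ω else 0) - M.E (g p)| + |∑ p ∈ P, M.E (g p)| := by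
            gcongr
            exact Finset.abs_sum_le_sum_abs _ _
        _ ≤ ε / 2 * P.card + ε / 2 * P.card := add_le_add hDEC1 habs
        _ = P.card * ε := by ring
    exact le_of_mul_le_mul_left hfin hPpos
  have h3 : |M.E (Fp A a W c)| ≤ 0 := by
    apply le_of_forall_pos_le_add
    intro ε hε
    rw [zero_add]
    exact main ε hε
  exact abs_nonpos_iff.1 h3

end Pool.Agent.H55.UF
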