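import Pool.Agent.H31.UF.Targets
import Pool.Agent.H32.LF.Mufp

/-!
Module [FIN] of the project UF on `MP_c59857_nt`: the final theorem for the Möbius function.
-/

set_option autoImplicit false

open Finset Filter Topology

namespace Pool.Agent.H55.UF

open Pool.Agent.H91.LF Pool.Agent.H31.UF
open Pool.Agent.H32.LF (WW WW_pos sqw_congr sqw_nonneg sqw_le sum_wt sum_le_cover wt_nonneg)

/-! ### Forms at the vertices -/

theorem lf_cf {k m : ℕ} (b : Fin m → ℤ) (s : Finset (Fin k)) (z : Fin (k + 1) → ℤ)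
    (t : Fin m → ℤ) : lf (cf b s) (Fin.append z t) = vx z s + ∑ l, b l * t l := by
  unfold lf cf vx
  rw [Fin.sum_univ_add]
  simp only [Fin.append_left, Fin.append_right]
  rw [Fin.sum_univ_succ]
  simp only [Fin.cons_zero, Fin.cons_succ, one_mul, ite_mul, zero_mul]
  rw [Finset.sum_ite_mem, Finset.univ_inter]

theorem lf_congr {d : ℕ} (A ω ω' : Fin d → ℤ) (W : ℤ) (h : ∀ i, ω i ≡ ω' i [ZMOD W]) :
    lf A ω ≡ lf A ω' [ZMOD W] := by
  unfold lf
  rw [Int.modEq_iff_dvd, ← Finset.sum_sub_distrib]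
  refine Finset.dvd_sum fun i _ => ?_
  rw [← mul_sub]
  exact Dvd.dvd.mul_left ((Int.modEq_iff_dvd).1 (h i)) _

theorem Rg_mono {K K' T x y : ℕ} (h : K' ≤ K) (hK : 1 ≤ K) (hR : Rg K T x y) : Rg K' T x y := by
  obtain ⟨h1, h2, h3, h4⟩ := hR
  refine ⟨h.trans h1, h2, (Nat.mul_le_mul_right x h).trans h3, ?_⟩
  have hx : (0 : ℝ) < x := by exact_mod_cast h2
  have hxy : x ≤ y := by
    have := (Nat.mul_le_mul_right x hK).trans h3
    simpa using this
  have h0 : (0 : ℝ) ≤ (T : ℝ) / x := by positivity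
  rcases le_total ((T : ℝ) / x) 1 with hle | hge
  · refine (pow_le_one₀ h0 hle).trans ?_
    rw [le_div_iff₀ hx, one_mul]
    exact_mod_cast hxy
  · exact (pow_le_pow_right₀ hge h).trans h4

/-! ### The weight and its periodicity -/

section

variable {k m r : ℕ}

open Classical in
/-- The periodic weight. -/
noncomputable def Wq (k w q n₀ : ℕ) (a : Fin r → ℤ) (b : Fin r → Fin m → ℤ)
    (ω : Fin (k + 1 + m) → ℤ) : ℝ :=
  ∏ s : Finset (Fin k), ((if lf (cf (0 : Fin m → ℤ) s) ω ≡ n₀ [ZMOD q] then 1 else 0) *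
    ∏ i, sqw w (lf (cf (b i) s) ω + a i))

theorem Wq_congr (k w q n₀ : ℕ) (a : Fin r → ℤ) (b : Fin r → Fin m → ℤ)
    (ω ω' : Fin (k + 1 + m) → ℤ) (h : ∀ i, ω i ≡ ω' i [ZMOD (WW q w : ℕ)]) :
    Wq k w q n₀ a b ω = Wq k w q n₀ a b ω' := by
  unfold Wq
  refine Finset.prod_congr rfl fun s _ => ?_
  have h1 : lf (cf (0 : Fin m → ℤ) s) ω ≡ lf (cf (0 : Fin m → ℤ) s) ω' [ZMOD q] := by
    have h2 := lf_congr (cf (0 : Fin m → ℤ) s) ω ω' _ h
    refine Int.ModEq.of_dvd ?_ h2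
    exact Int.natCast_dvd_natCast.2 (Dvd.intro _ rfl)
  have h3 : (lf (cf (0 : Fin m → ℤ) s) ω ≡ n₀ [ZMOD q]) ↔
      (lf (cf (0 : Fin m → ℤ) s) ω' ≡ n₀ [ZMOD q]) :=
    ⟨fun h => h1.symm.trans h, fun h => h1.trans h⟩
  rw [if_congr h3 rfl rfl]
  congr 1
  refine Finset.prod_congr rfl fun i _ => sqw_congr (q := q) ?_
  have h4 := lf_congr (cf (b i) s) ω ω' _ h
  have h5 := (Int.modEq_iff_dvd).1 h4.symm
  have e : lf (cf (b i) s) ω + a i - (lf (cf (b i) s) ω' + a i) =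
    lf (cf (b i) s) ω - lf (cf (b i) s) ω' := by ring
  rw [e]
  exact h5

theorem abs_Wq_le (k w q n₀ : ℕ) (a : Fin r → ℤ) (b : Fin r → Fin m → ℤ)
    (ω : Fin (k + 1 + m) → ℤ) : |Wq k w q n₀ a b ω| ≤ 1 := by
  unfold Wq
  refine abs_prod_le _ _ fun s _ => ?_
  refine abs_mul_le_one ?_ (abs_prod_le _ _ fun i _ => ?_)
  · split_ifs <;> simp
  · rw [abs_of_nonneg (sqw_nonneg _ _)]
    exact sqw_le _ _

end

/-! ### Splitting into classes -/

/-- A periodic weight times a product is a sum over classes. -/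
theorem split_classes {d r' : ℕ} {S : Type} [Fintype S] (A : Fin r' → S → Fin d → ℤ)
    (a : Fin r' → ℤ) (W : ℕ) (hW : 0 < W) (χ : (Fin d → ℤ) → ℝ)
    (hχ : ∀ ω ω' : Fin d → ℤ, (∀ i, ω i ≡ ω' i [ZMOD W]) → χ ω = χ ω') (ω : Fin d → ℤ) :
    χ ω * ∏ i, ∏ s, lz (lf (A i s) ω + a i) =
      ∑ u ∈ Fintype.piFinset (fun _ : Fin d => range W),
        χ (fun i => ((u i : ℕ) : ℤ)) * Fp A a W (fun i => ((u i : ℕ) : ℤ)) ω := by
  classical
  have hW' : (0 : ℤ) < W := by exact_mod_cast hW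
  set u₀ : Fin d → ℕ := fun i => (ω i % W).toNat with hu₀
  have hu : ∀ i, ((u₀ i : ℕ) : ℤ) = ω i % W := fun i =>
    Int.toNat_of_nonneg (Int.emod_nonneg _ hW'.ne')
  have hmem : u₀ ∈ Fintype.piFinset (fun _ : Fin d => range W) := by
    rw [Fintype.mem_piFinset]
    intro i
    rw [Finset.mem_range]
    have h1 := Int.emod_lt_of_pos (ω i) hW'
    rw [← hu i] at h1
    exact_mod_cast h1
  have hcong : ∀ i, ω i ≡ ((u₀ i : ℕ) : ℤ) [ZMOD W] := by
    intro i
    rw [hu i]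
    exact (Int.mod_modEq _ _).symm
  rw [Finset.sum_eq_single u₀]
  · rw [← hχ ω _ hcong]
    unfold Fp
    rw [if_pos hcong]
  · intro u hu' hne
    unfold Fp
    rw [if_neg, mul_zero]
    intro hcon
    apply hne
    funext i
    rw [Fintype.mem_piFinset] at hu'
    have h1 := Finset.mem_range.1 (hu' i)
    have h2 : ((u i : ℕ) : ℤ) ≡ ((u₀ i : ℕ) : ℤ) [ZMOD W] := (hcon i).symm.trans (hcong i)
    rw [Int.natCast_modEq_iff] at h2
    have h3 := Finset.mem_range.1 ((Fintype.mem_piFinset.1 hmem) i)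
    exact Nat.ModEq.eq_of_lt_of_lt h2 h1 h3
  · intro h
    exact absurd hmem h

theorem ak_add (k m T x y : ℕ) (f g : (Fin (k + 1 + m) → ℤ) → ℝ) :
    ak k m T x y (fun ω => f ω + g ω) = ak k m T x y f + ak k m T x y g := by
  unfold ak
  simp only [Finset.sum_add_distrib, add_div, mul_add]

theorem ak_smul (k m T x y : ℕ) (c : ℝ) (f : (Fin (k + 1 + m) → ℤ) → ℝ) :
    ak k m T x y (fun ω => c * f ω) = c * ak k m T x y f := by
  unfold ak
  rw [Finset.mul_sum]
  refine Finset.sum_congr rfl fun t _ => ?_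
  rw [mul_left_comm]
  congr 1
  rw [Finset.mul_sum]
  refine Finset.sum_congr rfl fun N _ => ?_
  rw [← Finset.mul_sum]
  ring

theorem ak_zero (k m T x y : ℕ) : ak k m T x y (fun _ => 0) = 0 := by
  unfold ak
  simp

theorem ak_sum {ι : Type*} (k m T x y : ℕ) (s : Finset ι) (c : ι → ℝ)
    (f : ι → (Fin (k + 1 + m) → ℤ) → ℝ) :
    ak k m T x y (fun ω => ∑ u ∈ s, c u * f u ω) = ∑ u ∈ s, c u * ak k m T x y (f u) := by
  classical
  induction s using Finset.induction_on with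
  | empty => simpa using ak_zero k m T x y
  | insert i s hi ih =>
    simp only [Finset.sum_insert hi]
    rw [ak_add, ak_smul, ih]

/-! ### Replacing the function -/

theorem gow_le (hCBE : T_CBE) (k N : ℕ) (hN : 0 < N) (f g : ℤ → ℝ) (hf : ∀ n, |f n| ≤ 1)
    (hg : ∀ n, |g n| ≤ 1) :
    gow k N f ≤ gow k N g + 6 ^ k * ((∑ n ∈ Finset.Icc (1 : ℤ) N, |f n - g n|) / N) := by
  have hN' : (0 : ℝ) < N := by exact_mod_cast hN
  have h1 := (le_abs_self _).trans (hCBE k N f g hf hg)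
  rw [Finset.sum_sub_distrib] at h1
  set F := ∑ z ∈ CB k N, ∏ s, f (vx z s) with hF
  set G := ∑ z ∈ CB k N, ∏ s, g (vx z s) with hG
  set D := ∑ n ∈ Finset.Icc (1 : ℤ) N, |f n - g n| with hD
  have hD0 : 0 ≤ D := Finset.sum_nonneg fun _ _ => abs_nonneg _
  have h2 : (2 * (N : ℝ) + 1) ^ k ≤ (3 * N) ^ k := by
    apply pow_le_pow_left₀ (by positivity)
    have : (1 : ℝ) ≤ N := by exact_mod_cast hN
    linarith
  have h3 : F ≤ G + 6 ^ k * N ^ k * D := by
    have h4 : 2 ^ k * (2 * (N : ℝ) + 1) ^ k * D ≤ 2 ^ k * (3 * N) ^ k * D := by gcongr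
    have h5 : (2 : ℝ) ^ k * (3 * N) ^ k * D = 6 ^ k * N ^ k * D := by
      rw [mul_pow, ← mul_assoc, ← mul_pow]
      norm_num
    linarith
  have e1 : gow k N f = F / (N : ℝ) ^ (k + 1) := rfl
  have e2 : gow k N g = G / (N : ℝ) ^ (k + 1) := rfl
  rw [e1, e2, div_le_iff₀ (by positivity)]
  have e3 : (G / (N : ℝ) ^ (k + 1) + 6 ^ k * (D / N)) * (N : ℝ) ^ (k + 1) =
      G + 6 ^ k * N ^ k * D := by
    field_simp
    ring
  rw [e3]
  exact h3

section

variable {k m r : ℕ}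

open Classical in
/-- The function which replaces the function of the problem. -/
noncomputable def gg (w q n₀ : ℕ) (a : Fin r → ℤ) (b : Fin r → Fin m → ℤ) (ε : Fin r → ℕ)
    (t : Fin m → ℤ) (n : ℤ) : ℝ :=
  (if n ≡ n₀ [ZMOD q] then 1 else 0) *
    ((∏ i ∈ univ.filter (fun i => Odd (ε i)), lz (frm (a i) (b i) n t)) *
      ∏ i, sqw w (frm (a i) (b i) n t))

theorem abs_gg_le (w q n₀ : ℕ) (a : Fin r → ℤ) (b : Fin r → Fin m → ℤ) (ε : Fin r → ℕ)
    (t : Fin m → ℤ) (n : ℤ) : |gg w q n₀ a b ε t n| ≤ 1 := by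
  unfold gg
  refine abs_mul_le_one ?_ (abs_mul_le_one (abs_prod_le _ _ fun i _ => abs_lz_le _)
    (abs_prod_le _ _ fun i _ => ?_))
  · split_ifs <;> simp
  · rw [abs_of_nonneg (sqw_nonneg _ _)]
    exact sqw_le _ _

theorem abs_mu_le (n : ℕ) : |((ArithmeticFunction.moebius n : ℤ) : ℝ)| ≤ 1 := by
  have h := ArithmeticFunction.abs_moebius_le_one (n := n)
  exact_mod_cast h

theorem abs_fu_le (a : Fin r → ℤ) (b : Fin r → Fin m → ℤ) (cc : Fin r → ℤ)
    (ε : Fin r → ℕ) (q n₀ : ℕ) (t : Fin m → ℕ) (p : ℕ) (n : ℤ) :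
    |fu a b cc ε q n₀ t p n| ≤ 1 := by
  unfold fu
  split_ifs
  · refine abs_prod_le _ _ fun i _ => ?_
    rw [abs_pow]
    exact pow_le_one₀ (abs_nonneg _) (abs_mu_le _)
  · simp

/-- The difference of the two functions. -/
theorem abs_fu_sub_gg_le (a : Fin r → ℤ) (b : Fin r → Fin m → ℤ) (cc : Fin r → ℤ)
    (ε : Fin r → ℕ) (w q n₀ : ℕ) (t : Fin m → ℕ) (p : ℕ) (n : ℤ) :
    |fu a b cc ε q n₀ t p n -
        gg w q n₀ (fun i => a i + cc i * (p : ℤ)) b ε (fun l => (t l : ℤ)) n| ≤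
      |(∏ i, ((ArithmeticFunction.moebius
            ((n + (a i + cc i * (p : ℤ) + ∑ l, b i l * (t l : ℤ))).toNat) : ℤ) : ℝ) ^ ε i) -
          (∏ i ∈ Finset.univ.filter (fun i => Odd (ε i)),
              lz (frm (a i + cc i * (p : ℤ)) (b i) n (fun l => (t l : ℤ)))) *
            ∏ i, sqw w (frm (a i + cc i * (p : ℤ)) (b i) n (fun l => (t l : ℤ)))| := by
  unfold fu gg
  by_cases h : n ≡ n₀ [ZMOD q]
  · rw [if_pos h, if_pos h, one_mul]
    apply le_of_eq
    congr 2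
    refine Finset.prod_congr rfl fun i _ => ?_
    have e : n + (a i + ∑ l, b i l * (t l : ℤ) + cc i * (p : ℤ)) =
      n + (a i + cc i * (p : ℤ) + ∑ l, b i l * (t l : ℤ)) := by ring
    rw [e]
  · rw [if_neg h, if_neg h, zero_mul, sub_zero, abs_zero]
    exact abs_nonneg _

/-- The product over the vertices. -/
theorem prod_gg {r' : ℕ} (w q n₀ : ℕ) (a : Fin r → ℤ) (b : Fin r → Fin m → ℤ) (ε : Fin r → ℕ)
    (e : {i // Odd (ε i)} ≃ Fin r') (t : Fin m → ℤ) (z : Fin (k + 1) → ℤ) :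
    ∏ s, gg w q n₀ a b ε t (vx z s) =
      Wq k w q n₀ a b (Fin.append z t) *
        ∏ i : Fin r', ∏ s : Finset (Fin k), lz (lf (cf (b (e.symm i).1) s) (Fin.append z t) +
          a (e.symm i).1) := by
  unfold Wq
  rw [Finset.prod_comm, ← Finset.prod_mul_distrib]
  refine Finset.prod_congr rfl fun s _ => ?_
  unfold gg
  have e1 : ∀ i, frm (a i) (b i) (vx z s) t = lf (cf (b i) s) (Fin.append z t) + a i := by
    intro i
    rw [lf_cf]
    unfold frm
    ring
  have e2 : lf (cf (0 : Fin m → ℤ) s) (Fin.append z t) = vx z s := by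
    rw [lf_cf]
    simp
  have e3 : ∏ i ∈ univ.filter (fun i => Odd (ε i)), lz (frm (a i) (b i) (vx z s) t) =
      ∏ i : Fin r', lz (lf (cf (b (e.symm i).1) s) (Fin.append z t) + a (e.symm i).1) := by
    rw [← Finset.prod_subtype_eq_prod_filter (s := (univ : Finset (Fin r)))
      (p := fun i => Odd (ε i)), Finset.subtype_univ]
    rw [← e.symm.prod_comp (fun i : {i // Odd (ε i)} =>
        lz (frm (a i.1) (b i.1) (vx z s) t))]
    exact Finset.prod_congr rfl fun i _ => by rw [e1]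
  rw [e3, e2]
  simp only [e1]
  ring

end

/-! ### The main inequality -/

open Classical in
/-- The main inequality for one prime. -/
theorem main_ineq (hCBE : T_CBE) (k m r : ℕ) (a : Fin r → ℤ) (b : Fin r → Fin m → ℤ)
    (cc : Fin r → ℤ) (ε : Fin r → ℕ) (q n₀ w : ℕ) (hq : 0 < q) (p T x y : ℕ) (η : ℝ) (hη : 0 ≤ η)
    (hT : 3 ≤ T) (hx : 0 < x) (hxy : 0 ≤ Real.log (y / x)) {r' : ℕ}
    (e : {i // Odd (ε i)} ≃ Fin r')
    (h : ∀ t ∈ H91.LF.box m T,
      ∑ N ∈ Finset.Icc x y, (1 / (N : ℝ)) * ((∑ n ∈ Finset.Icc (1 : ℤ) N,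
        |(∏ i, ((ArithmeticFunction.moebius
            ((n + (a i + cc i * (p : ℤ) + ∑ l, b i l * (t l : ℤ))).toNat) : ℤ) : ℝ) ^ ε i) -
          (∏ i ∈ Finset.univ.filter (fun i => Odd (ε i)),
              lz (frm (a i + cc i * (p : ℤ)) (b i) n (fun l => (t l : ℤ)))) *
            ∏ i, sqw w (frm (a i + cc i * (p : ℤ)) (b i) n (fun l => (t l : ℤ)))|) / N) ≤
      η * Real.log (y / x)) :
    ∑ t ∈ H91.LF.box m T, wt t * ∑ N ∈ Finset.Icc x y, (1 / (N : ℝ)) *
      gow k N (fu a b cc ε q n₀ t p) ≤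
    6 ^ k * η * (2 * Real.log T) ^ m * Real.log (y / x) +
      ∑ u ∈ Fintype.piFinset (fun _ : Fin (k + 1 + m) => range (WW q w)),
        |ak k m T x y (Fp (fun i => cf (k := k) (b (e.symm i).1))
          (fun i => a (e.symm i).1 + cc (e.symm i).1 * (p : ℤ)) (WW q w)
            (fun i => ((u i : ℕ) : ℤ)))| := by
  have hW := WW_pos hq w
  set W := WW q w with hWdef
  set a' : Fin r → ℤ := fun i => a i + cc i * (p : ℤ) with ha'
  -- step 1
  have h1 : ∀ t ∈ H91.LF.box m T, ∑ N ∈ Finset.Icc x y, (1 / (N : ℝ)) *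
      gow k N (fu a b cc ε q n₀ t p) ≤ 6 ^ k * (η * Real.log (y / x)) +
      ∑ N ∈ Finset.Icc x y, (1 / (N : ℝ)) * gow k N (gg w q n₀ a' b ε (fun l => (t l : ℤ))) := by
    intro t ht
    have h2 : ∀ N ∈ Finset.Icc x y, (1 / (N : ℝ)) * gow k N (fu a b cc ε q n₀ t p) ≤
        6 ^ k * ((1 / (N : ℝ)) * ((∑ n ∈ Finset.Icc (1 : ℤ) N,
        |(∏ i, ((ArithmeticFunction.moebius
            ((n + (a i + cc i * (p : ℤ) + ∑ l, b i l * (t l : ℤ))).toNat) : ℤ) : ℝ) ^ ε i) -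
          (∏ i ∈ Finset.univ.filter (fun i => Odd (ε i)),
              lz (frm (a i + cc i * (p : ℤ)) (b i) n (fun l => (t l : ℤ)))) *
            ∏ i, sqw w (frm (a i + cc i * (p : ℤ)) (b i) n (fun l => (t l : ℤ)))|) / N)) +
        (1 / (N : ℝ)) * gow k N (gg w q n₀ a' b ε (fun l => (t l : ℤ))) := by
      intro N hN
      have hN0 : 0 < N := lt_of_lt_of_le hx (Finset.mem_Icc.1 hN).1
      have hN' : (0 : ℝ) < N := by exact_mod_cast hN0
      have h3 := gow_le hCBE k N hN0 (fu a b cc ε q n₀ t p)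
        (gg w q n₀ a' b ε (fun l => (t l : ℤ))) (fun n => abs_fu_le _ _ _ _ _ _ _ _ n)
        (fun n => abs_gg_le _ _ _ _ _ _ _ n)
      have h4 : ∑ n ∈ Finset.Icc (1 : ℤ) N, |fu a b cc ε q n₀ t p n -
          gg w q n₀ a' b ε (fun l => (t l : ℤ)) n| ≤ ∑ n ∈ Finset.Icc (1 : ℤ) N,
        |(∏ i, ((ArithmeticFunction.moebius
            ((n + (a i + cc i * (p : ℤ) + ∑ l, b i l * (t l : ℤ))).toNat) : ℤ) : ℝ) ^ ε i) -
          (∏ i ∈ Finset.univ.filter (fun i => Odd (ε i)),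
              lz (frm (a i + cc i * (p : ℤ)) (b i) n (fun l => (t l : ℤ)))) *
            ∏ i, sqw w (frm (a i + cc i * (p : ℤ)) (b i) n (fun l => (t l : ℤ)))| :=
        Finset.sum_le_sum fun n _ => abs_fu_sub_gg_le a b cc ε w q n₀ t p n
      have h5 := div_le_div_of_nonneg_right h4 hN'.le
      have h6 := mul_le_mul_of_nonneg_left h5 (by positivity : (0 : ℝ) ≤ 6 ^ k)
      have h7 := mul_le_mul_of_nonneg_left (h3.trans (add_le_add_right h6 _))
        (by positivity : (0 : ℝ) ≤ 1 / (N : ℝ))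
      refine h7.trans (le_of_eq ?_)
      ring
    refine (Finset.sum_le_sum h2).trans ?_
    rw [Finset.sum_add_distrib, ← Finset.mul_sum]
    exact add_le_add_left (mul_le_mul_of_nonneg_left (h t ht) (by positivity)) _
  -- step 2
  have h8 : ∑ t ∈ H91.LF.box m T, wt t * ∑ N ∈ Finset.Icc x y, (1 / (N : ℝ)) *
      gow k N (fu a b cc ε q n₀ t p) ≤
      (∑ t ∈ H91.LF.box m T, wt t) * (6 ^ k * (η * Real.log (y / x))) +
      ∑ t ∈ H91.LF.box m T, wt t * ∑ N ∈ Finset.Icc x y, (1 / (N : ℝ)) *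
        gow k N (gg w q n₀ a' b ε (fun l => (t l : ℤ))) := by
    rw [Finset.sum_mul, ← Finset.sum_add_distrib]
    refine Finset.sum_le_sum fun t ht => ?_
    rw [← mul_add]
    exact mul_le_mul_of_nonneg_left (h1 t ht) (wt_nonneg t)
  refine h8.trans (add_le_add ?_ ?_)
  · have h9 : 0 ≤ 6 ^ k * (η * Real.log (y / x)) := by positivity
    refine (mul_le_mul_of_nonneg_right (sum_wt m T hT) h9).trans (le_of_eq ?_)
    ring
  · have h10 : ∑ t ∈ H91.LF.box m T, wt t * ∑ N ∈ Finset.Icc x y, (1 / (N : ℝ)) *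
        gow k N (gg w q n₀ a' b ε (fun l => (t l : ℤ))) =
        ak k m T x y (fun ω => ∑ u ∈ Fintype.piFinset (fun _ : Fin (k + 1 + m) => range W),
          Wq k w q n₀ a' b (fun i => ((u i : ℕ) : ℤ)) *
            Fp (fun i => cf (k := k) (b (e.symm i).1))
              (fun i => a' (e.symm i).1) W (fun i => ((u i : ℕ) : ℤ)) ω) := by
      unfold ak
      refine Finset.sum_congr rfl fun t _ => ?_
      congr 1
      refine Finset.sum_congr rfl fun N _ => ?_
      congr 1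
      unfold gow
      congr 1
      refine Finset.sum_congr rfl fun z _ => ?_
      rw [prod_gg w q n₀ a' b ε e]
      exact split_classes (fun i => cf (k := k) (b (e.symm i).1)) (fun i => a' (e.symm i).1) W hW
        (Wq k w q n₀ a' b) (fun ω ω' hω => Wq_congr k w q n₀ a' b ω ω' hω) _
    rw [h10, ak_sum]
    refine Finset.sum_le_sum fun u _ => ?_
    refine (le_abs_self _).trans ?_
    rw [abs_mul]
    calc _ ≤ 1 * |ak k m T x y (Fp (fun i => cf (k := k) (b (e.symm i).1))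
          (fun i => a' (e.symm i).1) W (fun i => ((u i : ℕ) : ℤ)))| :=
          mul_le_mul_of_nonneg_right (abs_Wq_le _ _ _ _ _ _ _) (abs_nonneg _)
      _ = _ := one_mul _

/-- [FIN] The final theorem. -/
theorem pf_FIN (hLAM : T_LAM) (hMUA : T_MUA) (hCBC : T_CBC) (hCBE : T_CBE)
    (hIND : StatementIND) : T_FIN := by
  classical
  have _ := hCBC
  intro k m r a b cc ε q n₀ j hk hε hj hq hspan ρ hρ
  obtain ⟨w, hw⟩ := hMUA r (ρ / (6 ^ k * 2 ^ (m + 1))) (by positivity)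
  have hW : 0 < WW q w := WW_pos hq w
  set W := WW q w with hWdef
  obtain ⟨r', ⟨e⟩⟩ : ∃ r', Nonempty ({i // Odd (ε i)} ≃ Fin r') :=
    ⟨_, ⟨Fintype.equivFin _⟩⟩
  have hInd : Ind (fun i => a (e.symm i).1) (fun i => b (e.symm i).1) (e ⟨j, hj⟩) := by
    obtain ⟨D, u, v, hv1, hv2⟩ := hIND m r a b (fun i => Odd (ε i)) j hspan
    refine ⟨D, u, v, ?_, ?_⟩
    · intro i hi
      apply hv1
      · intro h
        apply hi
        rw [← e.apply_symm_apply i]
        congr 1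
        exact Subtype.ext h
      · exact (e.symm i).2
    · simpa using hv2
  have hW' : (0 : ℝ) < W := by exact_mod_cast hW
  set ρ' : ℝ := ρ / (2 * (W : ℝ) ^ (k + 1 + m)) with hρ'
  have hρ'pos : 0 < ρ' := by positivity
  choose C hC using fun u : Fin (k + 1 + m) → ℕ =>
    hLAM k m r' (fun i => a (e.symm i).1) (fun i => b (e.symm i).1) (fun i => cc (e.symm i).1)
      (e ⟨j, hj⟩) W (fun i => ((u i : ℕ) : ℤ)) hk hW hInd ρ' hρ'pos
  set I : Finset (Fin (k + 1 + m) → ℕ) :=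
    Fintype.piFinset (fun _ : Fin (k + 1 + m) => range W) with hI
  have hIcard : (I.card : ℝ) = (W : ℝ) ^ (k + 1 + m) := by
    rw [hI, Fintype.card_piFinset]
    simp
  refine ⟨∑ u ∈ I, C u, fun P => ?_⟩
  choose K₁ hK₁ using fun u : Fin (k + 1 + m) → ℕ => hC u P
  choose K₂ hK₂ using fun p : ℕ => hw m (fun i => a i + cc i * (p : ℤ)) b ε hε
  refine ⟨max 3 (max (I.sup K₁) ((primesLE P).sup K₂)), fun T x y hKT hx hKxy hTx => ?_⟩
  set K := max 3 (max (I.sup K₁) ((primesLE P).sup K₂)) with hK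
  have hK1 : 1 ≤ K := (by norm_num : 1 ≤ 3).trans (le_max_left _ _)
  have hR : Rg K T x y := ⟨hKT, hx, hKxy, hTx⟩
  have hR1 : ∀ u ∈ I, Rg (K₁ u) T x y := fun u hu =>
    Rg_mono ((Finset.le_sup (f := K₁) hu).trans ((le_max_left _ _).trans (le_max_right _ _)))
      hK1 hR
  have hR2 : ∀ p ∈ primesLE P, Rg (K₂ p) T x y := fun p hp =>
    Rg_mono ((Finset.le_sup (f := K₂) hp).trans ((le_max_right _ _).trans (le_max_right _ _)))
      hK1 hR
  have hT3 : 3 ≤ T := (le_max_left _ _).trans hKT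
  have hxy1 : x ≤ y := by
    have := (Nat.mul_le_mul_right x hK1).trans hKxy
    simpa using this
  have hlogxy : 0 ≤ Real.log ((y : ℝ) / x) := by
    apply Real.log_nonneg
    rw [le_div_iff₀ (by exact_mod_cast hx)]
    rw [one_mul]
    exact_mod_cast hxy1
  have hlogT : 0 ≤ Real.log (T : ℝ) := by
    apply Real.log_nonneg
    have : (3 : ℝ) ≤ T := by exact_mod_cast hT3
    linarith
  apply sum_le_cover _ I (fun u => (primesLE P).filter (fun p : ℕ =>
      ρ' * Real.log T ^ m * Real.log (y / x) <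
        |ak k m T x y (Fp (fun i => cf (k := k) (b (e.symm i).1))
          (fun i => a (e.symm i).1 + cc (e.symm i).1 * (p : ℤ)) W
            (fun i => ((u i : ℕ) : ℤ)))|)) _ (fun p => by positivity)
  · intro p hp
    rw [Finset.mem_filter] at hp
    obtain ⟨hpP, hbad⟩ := hp
    by_contra hcon
    push Not at hcon
    have hgood : ∀ u ∈ I, |ak k m T x y (Fp (fun i => cf (k := k) (b (e.symm i).1))
          (fun i => a (e.symm i).1 + cc (e.symm i).1 * (p : ℤ)) W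
            (fun i => ((u i : ℕ) : ℤ)))| ≤
        ρ' * Real.log T ^ m * Real.log (y / x) := by
      intro u hu
      have := hcon u hu
      rw [Finset.mem_filter] at this
      by_contra h
      exact this ⟨hpP, not_le.1 h⟩
    have hmain := main_ineq hCBE k m r a b cc ε q n₀ w hq p T x y
      (ρ / (6 ^ k * 2 ^ (m + 1))) (by positivity) hT3 hx hlogxy e (hK₂ p T x y (hR2 p hpP))
    have hsum : ∑ u ∈ I, |ak k m T x y (Fp (fun i => cf (k := k) (b (e.symm i).1))
          (fun i => a (e.symm i).1 + cc (e.symm i).1 * (p : ℤ)) W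
            (fun i => ((u i : ℕ) : ℤ)))| ≤
        (W : ℝ) ^ (k + 1 + m) * (ρ' * Real.log T ^ m * Real.log (y / x)) := by
      rw [← hIcard, ← nsmul_eq_mul]
      apply Finset.sum_le_card_nsmul
      intro u hu
      exact hgood u hu
    have e1 : (W : ℝ) ^ (k + 1 + m) * (ρ' * Real.log T ^ m * Real.log (y / x)) =
        ρ / 2 * (Real.log T ^ m * Real.log (y / x)) := by
      rw [hρ']
      field_simp
    have e2 : 6 ^ k * (ρ / (6 ^ k * 2 ^ (m + 1))) * (2 * Real.log T) ^ m * Real.log (y / x) =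
        ρ / 2 * (Real.log T ^ m * Real.log (y / x)) := by
      rw [mul_pow, pow_succ]
      field_simp
    rw [e1] at hsum
    rw [e2] at hmain
    have h3 := hmain.trans (add_le_add_right hsum _)
    have h4 : ρ / 2 * (Real.log T ^ m * Real.log (y / x)) +
        ρ / 2 * (Real.log T ^ m * Real.log (y / x)) =
        ρ * Real.log T ^ m * Real.log (y / x) := by ring
    rw [h4] at h3
    exact absurd (lt_of_lt_of_le hbad h3) (lt_irrefl _)
  · intro u hu
    exact hK₁ u T x y (hR1 u hu)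

end Pool.Agent.H55.UF
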